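import Pool.Agent.N728.QL.Def

/-! # QL/LOC: the average of the sieve model along the polynomial -/

open Finset Pool.Agent.N728.QL

namespace Pool.Agent.N92.QL

noncomputable section

open Classical in
lemma loc_crt2 {m n : ℕ} (hm : 0 < m) (hn : 0 < n) (h : m.Coprime n) (P R : ℕ → Prop) :
    ((range (m * n)).filter fun t => P (t % m) ∧ R (t % n)).card =
      ((range m).filter P).card * ((range n).filter R).card := by
  rw [← Finset.card_product]
  refine Finset.card_bij' (fun t _ => (t % m, t % n))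
    (fun x _ => (Nat.chineseRemainder h x.1 x.2 : ℕ)) ?_ ?_ ?_ ?_
  · intro t ht
    rw [mem_filter] at ht
    rw [mem_product, mem_filter, mem_filter, mem_range, mem_range]
    exact ⟨⟨Nat.mod_lt _ hm, ht.2.1⟩, Nat.mod_lt _ hn, ht.2.2⟩
  · rintro ⟨x, y⟩ hx
    rw [mem_product, mem_filter, mem_filter, mem_range, mem_range] at hx
    obtain ⟨⟨h1, h2⟩, h3, h4⟩ := hx
    rw [mem_filter, mem_range]
    have h5 := (Nat.chineseRemainder h x y).2
    have h6 : (Nat.chineseRemainder h x y : ℕ) % m = x := by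
      rw [h5.1]
      exact Nat.mod_eq_of_lt h1
    have h7 : (Nat.chineseRemainder h x y : ℕ) % n = y := by
      rw [h5.2]
      exact Nat.mod_eq_of_lt h3
    refine ⟨Nat.chineseRemainder_lt_mul h x y hm.ne' hn.ne', ?_, ?_⟩
    · rw [h6]
      exact h2
    · rw [h7]
      exact h4
  · intro t ht
    rw [mem_filter, mem_range] at ht
    have h5 := (Nat.chineseRemainder h (t % m) (t % n)).2
    have h6 : (Nat.chineseRemainder h (t % m) (t % n) : ℕ) ≡ t [MOD m * n] := by
      rw [← Nat.modEq_and_modEq_iff_modEq_mul h]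
      exact ⟨h5.1.trans (Nat.mod_modEq _ _), h5.2.trans (Nat.mod_modEq _ _)⟩
    exact Nat.ModEq.eq_of_lt_of_lt h6 (Nat.chineseRemainder_lt_mul h _ _ hm.ne' hn.ne') ht.1
  · rintro ⟨x, y⟩ hx
    rw [mem_product, mem_filter, mem_filter, mem_range, mem_range] at hx
    obtain ⟨⟨h1, h2⟩, h3, h4⟩ := hx
    have h5 := (Nat.chineseRemainder h x y).2
    have h6 : (Nat.chineseRemainder h x y : ℕ) % m = x := by
      rw [h5.1]
      exact Nat.mod_eq_of_lt h1
    have h7 : (Nat.chineseRemainder h x y : ℕ) % n = y := by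
      rw [h5.2]
      exact Nat.mod_eq_of_lt h3
    show ((Nat.chineseRemainder h x y : ℕ) % m, (Nat.chineseRemainder h x y : ℕ) % n) = (x, y)
    rw [h6, h7]

open Classical in
lemma loc_crt (S : Finset ℕ) (P : ℕ → ℕ → Prop) : (∀ p ∈ S, p.Prime) →
    ((range (∏ p ∈ S, p)).filter fun t => ∀ p ∈ S, P p (t % p)).card =
      ∏ p ∈ S, ((range p).filter (P p)).card := by
  induction S using Finset.induction_on with
  | empty =>
    intro _
    simp
  | insert q S hq ih =>
    intro hS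
    have hS' : ∀ p ∈ S, p.Prime := fun p hp => hS p (mem_insert_of_mem hp)
    rw [prod_insert hq, prod_insert hq, ← ih hS']
    have hqp : q.Prime := hS q (mem_insert_self _ _)
    have hpos : 0 < ∏ p ∈ S, p := prod_pos fun p hp => (hS' p hp).pos
    have hco : q.Coprime (∏ p ∈ S, p) := by
      refine Nat.Coprime.prod_right fun p hp => ?_
      rw [Nat.coprime_primes hqp (hS' p hp)]
      rintro rfl
      exact hq hp
    have key := loc_crt2 hqp.pos hpos hco (P q) (fun t => ∀ p ∈ S, P p (t % p))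
    refine Eq.trans ?_ (key.trans ?_)
    · congr 1
      ext t
      simp only [mem_filter, mem_insert, forall_eq_or_imp]
      refine and_congr_right fun _ => and_congr_right fun _ => ?_
      refine forall₂_congr fun p hp => ?_
      rw [Nat.mod_mod_of_dvd _ (dvd_prod_of_mem (fun p => p) hp)]
    · congr!

lemma loc_window {g : ℕ → ℝ} {Q : ℕ} (hg : ∀ n, g (n + Q) = g n) (n : ℕ) :
    ∑ i ∈ range Q, g (n + i) = ∑ i ∈ range Q, g i := by
  induction n with
  | zero => simp
  | succ n ih =>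
    have h1 : ∑ i ∈ range (Q + 1), g (n + i) = ∑ i ∈ range Q, g (n + i) + g (n + Q) :=
      sum_range_succ _ _
    have h2 : ∑ i ∈ range (Q + 1), g (n + i) = ∑ i ∈ range Q, g (n + (i + 1)) + g (n + 0) :=
      sum_range_succ' _ _
    rw [hg] at h1
    rw [add_zero] at h2
    rw [← ih]
    have h3 : ∑ i ∈ range Q, g (n + 1 + i) = ∑ i ∈ range Q, g (n + (i + 1)) :=
      sum_congr rfl fun i _ => by rw [show n + 1 + i = n + (i + 1) by ring]
    rw [h3]
    linarith

lemma loc_periodic {g : ℕ → ℝ} {Q : ℕ} {M : ℝ} (hQ : 0 < Q) (hg : ∀ n, g (n + Q) = g n)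
    (h0 : ∀ n, 0 ≤ g n) (h1 : ∀ n, g n ≤ M) : ∀ L n : ℕ,
    |∑ i ∈ range L, g (n + i) - L * ((∑ i ∈ range Q, g i) / Q)| ≤ M * Q := by
  have hQ' : (0 : ℝ) < Q := by exact_mod_cast hQ
  have hM : 0 ≤ M := (h0 0).trans (h1 0)
  have hS0 : 0 ≤ (∑ i ∈ range Q, g i) / Q := div_nonneg (sum_nonneg fun i _ => h0 i) hQ'.le
  have hS1 : (∑ i ∈ range Q, g i) / Q ≤ M := by
    rw [div_le_iff₀ hQ']
    calc ∑ i ∈ range Q, g i ≤ ∑ _i ∈ range Q, M := sum_le_sum fun i _ => h1 i
      _ = M * Q := by rw [sum_const, card_range, nsmul_eq_mul, mul_comm]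
  intro L
  induction L using Nat.strong_induction_on with
  | _ L ih =>
    intro n
    by_cases hL : L < Q
    · have hL' : (L : ℝ) ≤ Q := by exact_mod_cast hL.le
      have h2 : 0 ≤ ∑ i ∈ range L, g (n + i) := sum_nonneg fun i _ => h0 _
      have h3 : ∑ i ∈ range L, g (n + i) ≤ M * Q := by
        calc ∑ i ∈ range L, g (n + i) ≤ ∑ _i ∈ range L, M := sum_le_sum fun i _ => h1 _
          _ = L * M := by rw [sum_const, card_range, nsmul_eq_mul]
          _ ≤ Q * M := by gcongr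
          _ = M * Q := mul_comm _ _
      have h4 : 0 ≤ L * ((∑ i ∈ range Q, g i) / Q) := mul_nonneg (Nat.cast_nonneg _) hS0
      have h5 : L * ((∑ i ∈ range Q, g i) / Q) ≤ M * Q := by
        calc L * ((∑ i ∈ range Q, g i) / Q) ≤ Q * M := mul_le_mul hL' hS1 hS0 hQ'.le
          _ = M * Q := mul_comm _ _
      rw [abs_le]
      constructor <;> linarith
    · obtain ⟨K, rfl⟩ : ∃ K, L = K + Q := ⟨L - Q, by omega⟩
      have h2 := ih K (by omega) n
      have h3 : ∑ i ∈ range (K + Q), g (n + i) =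
          ∑ i ∈ range K, g (n + i) + ∑ i ∈ range Q, g i := by
        rw [sum_range_add, ← loc_window hg (n + K)]
        congr 1
        exact sum_congr rfl fun i _ => by rw [add_assoc]
      rw [h3]
      have h4 : ((K + Q : ℕ) : ℝ) * ((∑ i ∈ range Q, g i) / Q) =
          K * ((∑ i ∈ range Q, g i) / Q) + ∑ i ∈ range Q, g i := by
        push_cast
        field_simp
      rw [h4]
      have h5 : ∑ i ∈ range K, g (n + i) + ∑ i ∈ range Q, g i -
          (K * ((∑ i ∈ range Q, g i) / Q) + ∑ i ∈ range Q, g i) =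
          ∑ i ∈ range K, g (n + i) - K * ((∑ i ∈ range Q, g i) / Q) := by ring
      rw [h5]
      exact h2

open Classical in
/-- **LOC** -/
theorem t_LOC : S_LOC := by
  intro a c z
  have hV : 0 < VW 0 z := by
    unfold VW
    refine prod_pos fun p hp => ?_
    have hp' : (2 : ℝ) ≤ p := by exact_mod_cast (mem_filter.1 hp).2.two_le
    have : 1 / (p : ℝ) ≤ 1 / 2 := one_div_le_one_div_of_le (by norm_num) hp'
    linarith
  have hQ : 0 < PP 0 z := by
    unfold PP
    exact prod_pos fun p hp => (mem_filter.1 hp).2.pos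
  have hQ' : (0 : ℝ) < PP 0 z := by exact_mod_cast hQ
  refine ⟨(VW 0 z)⁻¹ * PP 0 z, by positivity, fun b T1 T2 hT => ?_⟩
  obtain ⟨S, hS⟩ : ∃ S, S = (Ioc 0 z).filter Nat.Prime := ⟨_, rfl⟩
  have hSp : ∀ p ∈ S, p.Prime := fun p hp => by
    rw [hS] at hp
    exact (mem_filter.1 hp).2
  obtain ⟨P, hP⟩ : ∃ P : ℕ → ℕ → Prop, P = fun p t : ℕ => ¬ (p : ℤ) ∣ a * (t : ℤ) ^ 2 + b * t + c := ⟨_, rfl⟩
  have hdv : ∀ p t : ℕ, (p : ℤ) ∣ a * ((t % p : ℕ) : ℤ) ^ 2 + b * ((t % p : ℕ) : ℤ) + c ↔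
      (p : ℤ) ∣ a * (t : ℤ) ^ 2 + b * t + c := by
    intro p t
    have h1 : ((t % p : ℕ) : ℤ) ≡ t [ZMOD p] := by
      push_cast
      exact Int.mod_modEq _ _
    have h2 : a * ((t % p : ℕ) : ℤ) ^ 2 + b * ((t % p : ℕ) : ℤ) + c ≡
        a * (t : ℤ) ^ 2 + b * t + c [ZMOD p] :=
      ((Int.ModEq.mul_left a (h1.pow 2)).add (Int.ModEq.mul_left b h1)).add_right c
    rw [← Int.modEq_zero_iff_dvd, ← Int.modEq_zero_iff_dvd]
    exact ⟨fun h => h2.symm.trans h, fun h => h2.trans h⟩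
  have hR : ∀ t : ℕ, Rg 0 z (a * (t : ℤ) ^ 2 + b * t + c) ↔ ∀ p ∈ S, P p (t % p) := by
    intro t
    rw [hP, hS]
    unfold Rg
    simp only [mem_filter, mem_Ioc]
    constructor
    · rintro h p ⟨⟨h1, h2⟩, h3⟩
      rw [hdv]
      exact h p h3 h1 h2
    · intro h p h3 h1 h2
      have := h p ⟨⟨h1, h2⟩, h3⟩
      rwa [hdv] at this
  obtain ⟨g, hg⟩ : ∃ g : ℕ → ℝ, g = fun t : ℕ => lz z (a * (t : ℤ) ^ 2 + b * t + c) := ⟨_, rfl⟩
  have hgv : ∀ t, g t = if ∀ p ∈ S, P p (t % p) then (VW 0 z)⁻¹ else 0 := by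
    intro t
    rw [hg]
    show lz z _ = _
    unfold lz
    by_cases h : Rg 0 z (a * (t : ℤ) ^ 2 + b * t + c)
    · rw [if_pos h, if_pos ((hR t).1 h)]
    · rw [if_neg h, if_neg (fun h' => h ((hR t).2 h'))]
  have hPP : PP 0 z = ∏ p ∈ S, p := by rw [hS]; rfl
  have hper : ∀ n, g (n + PP 0 z) = g n := by
    intro n
    rw [hgv, hgv]
    have : ∀ p ∈ S, (n + PP 0 z) % p = n % p := by
      intro p hp
      have hd : p ∣ PP 0 z := by
        rw [hPP]
        exact dvd_prod_of_mem (fun p => p) hp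
      obtain ⟨k, hk⟩ := hd
      rw [hk, Nat.add_mul_mod_self_left]
    congr 1
    rw [eq_iff_iff]
    refine forall₂_congr fun p hp => ?_
    rw [this p hp]
  have hg0 : ∀ n, 0 ≤ g n := by
    intro n
    rw [hgv]
    split_ifs <;> positivity
  have hg1 : ∀ n, g n ≤ (VW 0 z)⁻¹ := by
    intro n
    rw [hgv]
    split_ifs
    · exact le_rfl
    · positivity
  have hsum : (∑ i ∈ range (PP 0 z), g i) / PP 0 z = Sg a b c z := by
    have h1 : ∑ i ∈ range (PP 0 z), g i =
        ((∏ p ∈ S, ((range p).filter (P p)).card : ℕ) : ℝ) * (VW 0 z)⁻¹ := by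
      rw [← loc_crt S P hSp, ← hPP]
      simp_rw [hgv]
      rw [← sum_filter, sum_const, nsmul_eq_mul]
    rw [h1, hPP]
    unfold Sg VW
    rw [← hS, prod_div_distrib]
    push_cast
    rw [div_eq_mul_inv, div_eq_mul_inv, mul_right_comm]
    congr 1
    rw [← div_eq_mul_inv, ← prod_div_distrib]
    refine prod_congr rfl fun p hp => ?_
    have hp0 : (0 : ℝ) < p := by exact_mod_cast (hSp p hp).pos
    have h2 : ((range p).filter (P p)).card + om a b c p = p := by
      have h3 := card_filter_add_card_filter_not (s := range p)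
        (fun t : ℕ => (p : ℤ) ∣ a * (t : ℤ) ^ 2 + b * t + c)
      rw [card_range] at h3
      rw [add_comm]
      unfold om
      rw [hP]
      convert h3 using 2
      congr!
    have h3 : (((range p).filter (P p)).card : ℝ) = p - om a b c p := by
      have : ((((range p).filter (P p)).card : ℝ) + om a b c p) = p := by exact_mod_cast h2
      linarith
    rw [h3]
    field_simp
  have h := loc_periodic hQ hper hg0 hg1 (T2 - T1) (T1 + 1)
  rw [hsum] at h
  have h4 : ∑ t ∈ Ioc T1 T2, lz z (a * (t : ℤ) ^ 2 + b * t + c) =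
      ∑ i ∈ range (T2 - T1), g (T1 + 1 + i) := by
    have h6 : Ioc T1 T2 = Ico (T1 + 1) (T2 + 1) := by
      ext x
      simp only [mem_Ioc, mem_Ico]
      omega
    rw [h6, Finset.sum_Ico_eq_sum_range, show T2 + 1 - (T1 + 1) = T2 - T1 by omega, hg]
  rw [h4]
  have h5 : ((T2 : ℝ) - T1) = ((T2 - T1 : ℕ) : ℝ) := by
    rw [Nat.cast_sub hT]
  rw [h5]
  exact h

end

end Pool.Agent.N92.QL
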